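import Pool.Agent.Lib.TG9.Defs4
import Pool.Agent.Lib.TG_h68.PdLoc

/-!
# TANK G, backup track BC9: row R5 (outside of the bad divisors everything is good)
-/

set_option autoImplicit false

namespace Pool.Agent.TG9

open Pool.Agent.TG (Ov ZDim IsMin IsModel Bir ch chN LB KB PB PP PDiv RV stab LDeg ProjP)
open Pool.Agent.LU2 (locV)
open Pool.Agent.TG15 (Gt Tp hx smulK)
open Module Filter MvPolynomial

universe u

variable {k K : Type u} [Field k] [Field K] [Algebra k K]

theorem val_pow_le' {v : ValuationSubring K} {F : Submodule k K} {γ : v.ValueGroup}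
    (h : ∀ x ∈ F, v.valuation x ≤ γ) (hk : Ov k v) (i : ℕ) :
    ∀ x ∈ F ^ i, v.valuation x ≤ γ ^ i := by
  induction i with
  | zero =>
    intro x hx
    rw [pow_zero] at hx ⊢
    obtain ⟨a, rfl⟩ := Submodule.mem_one.1 hx
    exact (v.valuation_le_one_iff _).2 (hk a)
  | succ i ih =>
    intro x hx
    rw [pow_succ] at hx ⊢
    induction hx using Submodule.mul_induction_on' with
    | mem_mul_mem a ha b hb =>
      rw [map_mul]
      exact mul_le_mul' (ih a ha) (h b hb)
    | add a _ b _ h1 h2 => exact (v.valuation.map_add a b).trans (max_le h1 h2)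

/-- Outside of the boundary. -/
theorem Dat.out' {n : ℕ} {L : Submodule k K} {c : ℕ} {τ : K} {c' : ℕ}
    {q : K [⋀^Fin (n + 1)]→ₗ[k] K} (hd : Dat k n L c τ c' q) {v : ValuationSubring K}
    (hk : Ov k v) {m : ℕ} {W : Submodule k K} (hW : W ≤ L ^ m) (hT : ¬ Tp L (c + m) τ W v) :
    (∀ y ∈ L, y ∈ v) ∧ v.valuation τ = 1 ∧ ∃ w ∈ W, v.valuation w = 1 := by
  have h1 : ∃ w ∈ W, ¬ Gt v (τ * w) (L ^ (c + m)) := by
    by_contra hcon
    push Not at hcon
    exact hT ⟨hk, hcon⟩
  obtain ⟨w, hw, hGt⟩ := h1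
  rw [Gt] at hGt
  push Not at hGt
  obtain ⟨hτw, hmax⟩ := hGt
  have hL0 : L ≠ ⊥ := fun h => by
    have := hd.one
    rw [h, Submodule.mem_bot] at this
    exact one_ne_zero this
  obtain ⟨l, hl⟩ := TG.exists_isMin (V := v) hk ⟨hd.fg, hL0⟩
  have hl0 : 0 < v.valuation l := zero_lt_iff.2 ((Valuation.ne_zero_iff _).2 hl.ne)
  have hlmax : ∀ x ∈ L, v.valuation x ≤ v.valuation l := by
    intro x hx
    have h2 := (v.valuation_le_one_iff _).2 (hl.div x hx)
    rw [map_div₀] at h2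
    exact (div_le_one₀ hl0).1 h2
  have e1 : v.valuation τ ≤ v.valuation l ^ c := val_pow_le' hlmax hk c τ hd.τ_mem
  have e2 : v.valuation w ≤ v.valuation l ^ m := val_pow_le' hlmax hk m w (hW hw)
  have e3 : v.valuation l ^ (c + m) ≤ v.valuation τ * v.valuation w := by
    have := hmax (l ^ (c + m)) (Submodule.pow_mem_pow L hl.mem _)
    rwa [map_pow, map_mul] at this
  have e4 : v.valuation l ^ c ≤ v.valuation τ := by
    have h2 : v.valuation l ^ c * v.valuation l ^ m ≤ v.valuation τ * v.valuation l ^ m := by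
      rw [← pow_add]
      exact e3.trans (mul_le_mul_right e2 _)
    exact (mul_le_mul_iff_left₀ (pow_pos hl0 _)).1 h2
  obtain ⟨h3, h4⟩ := hd.out v hk fun y hy => (val_pow_le' hlmax hk c y hy).trans e4
  have h5 : v.valuation l = 1 := by
    refine le_antisymm ((v.valuation_le_one_iff _).2 (h3 l hl.mem)) ?_
    have := hlmax 1 hd.one
    rwa [map_one] at this
  refine ⟨h3, h4, w, hw, ?_⟩
  rw [h5, one_pow] at e2 e3
  rw [h4, one_mul] at e3
  exact le_antisymm e2 e3

/-- Row R5, from R6. -/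
theorem r5Stmt (h6 : R6Stmt k K) : R5Stmt k K := by
  intro m' p A₀ L c τ c' m q W f h S v hv hz hb hnb hnr
  have hcl := S.closed
  have hchar := S.char
  have hk := hv.ov
  have hd := S.dat
  rw [BadF, not_or, not_lt] at hnb
  obtain ⟨hLv, hτ1, w, hw, hw1⟩ := hd.out' hk S.W_le hnb.1
  have hAv : ∀ a ∈ A₀, a ∈ v := by
    intro a ha
    rw [← S.adj] at ha
    induction ha using Algebra.adjoin_induction with
    | mem x hx => exact hLv x hx
    | algebraMap r => exact hk r
    | add x y _ _ h1 h2 => exact v.add_mem _ _ h1 h2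
    | mul x y _ _ h1 h2 => exact v.mul_mem _ _ h1 h2
  have hLA : ∀ x ∈ L, x ∈ A₀ := fun x hx => by
    rw [← S.adj]
    exact Algebra.subset_adjoin hx
  have hpowA : ∀ (F : Submodule k K), (∀ x ∈ F, x ∈ A₀) → ∀ (i : ℕ), ∀ y ∈ F ^ i, y ∈ A₀ := by
    intro F hF i
    induction i with
    | zero =>
      intro y hy
      rw [pow_zero] at hy
      obtain ⟨a, rfl⟩ := Submodule.mem_one.1 hy
      exact A₀.algebraMap_mem a
    | succ i ih =>
      intro y hy
      rw [pow_succ] at hy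
      induction hy using Submodule.mul_induction_on' with
      | mem_mul_mem a ha b hb => exact A₀.mul_mem (ih a ha) (hF b hb)
      | add a _ b _ h1 h2 => exact A₀.add_mem h1 h2
  have hLpA := hpowA L hLA
  have hWA : ∀ x ∈ W, x ∈ A₀ := fun x hx => hLpA m x (S.W_le hx)
  have hHA : ∀ x ∈ W * L, x ∈ A₀ := by
    intro x hx
    induction hx using Submodule.mul_induction_on' with
    | mem_mul_mem a ha b hb => exact A₀.mul_mem (hWA a ha) (hLA b hb)
    | add a _ b _ h1 h2 => exact A₀.add_mem h1 h2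
  have hfA : ∀ j, f j ∈ A₀ := fun j => hpowA _ hHA _ _ (S.good.mem j)
  have hfle : ∀ j, v.valuation (f j) ≤ 1 := fun j =>
    (v.valuation_le_one_iff _).2 (hAv _ (hfA j))
  have hhA : ∀ Q : MvPolynomial (Fin (m' + 1 + 1)) k, aeval f Q ∈ A₀ := by
    intro Q
    induction Q using MvPolynomial.induction_on with
    | C a => rw [MvPolynomial.algHom_C]; exact A₀.algebraMap_mem a
    | add P Q hP hQ => rw [map_add]; exact A₀.add_mem hP hQ
    | mul_X P i hP => rw [map_mul, MvPolynomial.aeval_X]; exact A₀.mul_mem hP (hfA i)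
  -- the elements of value one
  have hone : ∀ j, IsMin v ((W * L) ^ (2 * (m' + 1) + 3)) (f j) → v.valuation (f j) = 1 := by
    intro j hj
    refine le_antisymm (hfle j) ?_
    have h1 : w ^ (2 * (m' + 1) + 3) ∈ (W * L) ^ (2 * (m' + 1) + 3) := by
      have h2 := Submodule.mul_mem_mul hw hd.one
      rw [mul_one] at h2
      exact Submodule.pow_mem_pow _ h2 _
    have h2 := (v.valuation_le_one_iff _).2 (hj.div _ h1)
    rw [map_div₀, map_pow, hw1, one_pow] at h2
    exact (div_le_one₀ (zero_lt_iff.2 ((Valuation.ne_zero_iff _).2 hj.ne))).1 h2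
  obtain ⟨V, hVv, hV⟩ := TG.exists_zdim_le (k := k) (V := v) hk
  obtain ⟨j₀, hj₀⟩ := S.good.bpf V hV.ov
  have hj₀v : IsMin v ((W * L) ^ (2 * (m' + 1) + 3)) (f j₀) :=
    ⟨hj₀.mem, hj₀.ne, fun g hg => hVv (hj₀.div g hg)⟩
  have hj₀1 := hone j₀ hj₀v
  obtain ⟨i₀, -, hi₀, -⟩ := S.secK V hV j₀
    (fun a => hj₀.div _ (S.good.mem a)) hj₀.ne
  -- `h i₀ (f)` has value one at `v`
  have hi₀v : v.valuation (aeval f (h i₀)) = 1 := by
    have h1 : V.valuation (aeval f (h i₀) / f j₀ ^ (m' + 1 + 1)) = 1 := by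
      rw [map_div₀, map_pow, hi₀, div_self (pow_ne_zero _ ((Valuation.ne_zero_iff _).2 hj₀.ne))]
    have h2 := LU2.val_eq_one_of_le hVv h1
    rwa [map_div₀, map_pow, hj₀1, one_pow, div_one] at h2
  have hh0ne : aeval f (h 0) ≠ 0 := S.h_ne
  have hratio : ∀ j, v.valuation (aeval f (h j) / aeval f (h 0)) = 1 := by
    intro j
    refine Fin.cases ?_ (fun j => ?_) j
    · rw [div_self hh0ne, map_one]
    · refine Fin.lastCases ?_ (fun j => ?_) j
      · exact hz
      · exact hb j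
  have hh0 : v.valuation (aeval f (h 0)) = 1 := by
    have h1 := hratio i₀
    rw [map_div₀, hi₀v, one_div] at h1
    exact inv_eq_one.1 h1
  have hhj : ∀ j, v.valuation (aeval f (h j)) = 1 := by
    intro j
    have h1 := hratio j
    rwa [map_div₀, hh0, div_one] at h1
  -- the Jacobian
  have hqf1 : v.valuation (q f) = 1 := by
    refine le_antisymm ((v.valuation_le_one_iff _).2 (hAv _ ?_)) hnb.2
    have h1 : ∀ j, f j ∈ L ^ ((m + 1) * (2 * (m' + 1) + 3)) := by
      intro j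
      have h2 : W * L ≤ L ^ (m + 1) := by
        rw [pow_succ]
        exact mul_le_mul' S.W_le le_rfl
      have h3 := pow_le_pow_left' h2 (2 * (m' + 1) + 3)
      rw [← pow_mul] at h3
      exact h3 (S.good.mem j)
    exact hLpA _ _ (hd.q_mem _ f h1)
  have hJ1 : v.valuation (aeval f (Matrix.det (Matrix.of fun i a => pderiv a (h i)))) = 1 := by
    refine le_antisymm ((v.valuation_le_one_iff _).2 (hAv _ (hhA _))) (not_lt.1 fun hlt => ?_)
    refine hnr ⟨j₀, fun a => hj₀v.div _ (S.good.mem a), hj₀.ne, ?_⟩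
    rw [hj₀1, one_pow]
    exact hlt
  have hs0 : ((m' + 1 + 1 : ℕ) : k) ≠ 0 := by
    intro h0
    have h1 := (CharP.cast_eq_zero_iff k p _).1 h0
    have h2 := Nat.le_of_dvd (Nat.succ_pos _) h1
    have h3 := S.lt
    have h4 : m' + 1 + 1 ≤ d9 (m' + 1) := by
      unfold d9 C9
      have h5 : 0 < (m' + 1).factorial := Nat.factorial_pos _
      have h6 : 1 ≤ (2 * (m' + 1) + 3) ^ (m' + 1) := Nat.one_le_pow _ _ (by omega)
      have h7 : 1 ≤ ((2 * (m' + 1) + 3) * (m' + 1 + 1)) ^ (m' + 1) :=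
        Nat.one_le_pow _ _ (by positivity)
      calc m' + 1 + 1 ≤ (m' + 1 + 6) * 1 * 1 * 1 := by omega
        _ ≤ (m' + 1 + 6) * (2 * (m' + 1) + 3) ^ (m' + 1) * (m' + 1).factorial *
            ((2 * (m' + 1) + 3) * (m' + 1 + 1)) ^ (m' + 1) := by gcongr; omega
    omega
  have hsv : v.valuation ((m' + 1 + 1 : ℕ) : K) = 1 := by
    have h1 : ((m' + 1 + 1 : ℕ) : K) = algebraMap k K ((m' + 1 + 1 : ℕ) : k) := by
      rw [map_natCast]
    have h2 := (v.valuation_le_one_iff _).2 (hk ((m' + 1 + 1 : ℕ) : k))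
    have h3 := (v.valuation_le_one_iff _).2 (hk ((m' + 1 + 1 : ℕ) : k)⁻¹)
    have h4 : algebraMap k K ((m' + 1 + 1 : ℕ) : k) ≠ 0 := (map_ne_zero _).2 hs0
    rw [map_inv₀, map_inv₀] at h3
    rw [h1]
    exact le_antisymm h2 ((inv_le_one₀ (zero_lt_iff.2 ((Valuation.ne_zero_iff _).2 h4))).1 h3)
  have hqh1 : v.valuation (q fun j => aeval f (h j)) = 1 := by
    have h1 := congrArg v.valuation (S.jac (m' + 1 + 1) h S.hom f)
    rw [map_mul, map_mul, hsv, one_mul, hJ1, hqf1, mul_one] at h1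
    exact h1
  -- localisation
  obtain ⟨hind, htr, -, -⟩ := h6 m' p A₀ L c τ c' m q W f h S
  obtain ⟨hvt, w', hw', hwv⟩ := pdStmt k K m' (bb f h) (zz f h) hind htr v hv
  have hbA : ∀ j, aeval f (h j) / aeval f (h 0) ∈ locV v A₀ := fun j =>
    ⟨_, hhA _, _, hhA _, hh0, rfl⟩
  have hloc : ∀ x ∈ v, x ∈ locV v A₀ := by
    refine locStmt k K (m' + 1) hcl S.trdeg S.pos A₀ S.A_fg S.A_int S.A_frac v hvt hAv
      ⟨w', fun i => ?_, hwv⟩
    rcases hw' i with h1 | ⟨j, h1⟩
    · rw [h1]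
      exact hbA _
    · rw [← h1]
      exact hbA _
  refine ⟨fun d hdb hdz => ?_, hAv, hloc⟩
  refine S.der v hAv hτ1 hloc (fun j => aeval f (h j)) (fun j => hAv _ (hhA _)) hh0 hqh1 d ?_
  intro j
  refine Fin.cases ?_ (fun j => ?_) j
  · rw [div_self hh0ne, Derivation.map_one_eq_zero]
    exact v.zero_mem
  · refine Fin.lastCases ?_ (fun j => ?_) j
    · exact hdz
    · exact hdb j

end Pool.Agent.TG9
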