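import Pool.Agent.Lib.TG9.Defs
import Pool.Agent.Lib.TG15.LemS

/-!
# TANK G, backup track BC9: a tuple with generic coefficients attains the maxima `T_i`
-/

set_option autoImplicit false

namespace Pool.Agent.TG9

open Pool.Agent.TG (Ov ZDim IsMin IsModel Bir ch chN)
open Pool.Agent.TG15 (Gt Tp hx smulK)
open Module Filter

universe u

variable {k K : Type u} [Field k] [Field K] [Algebra k K] {n s : ℕ}

/-- The tuple with coefficients `c` with respect to the family `b`. -/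
def gtup (b : Fin s → K) (c : Fin (n + 1) × Fin s → k) : Fin (n + 1) → K :=
  fun j => ∑ a, c (j, a) • b a

theorem q_gtup (q : K [⋀^Fin (n + 1)]→ₗ[k] K) (b : Fin s → K) (c : Fin (n + 1) × Fin s → k) :
    q (gtup b c) = ∑ r : Fin (n + 1) → Fin s,
      algebraMap k K (MvPolynomial.eval c (∏ l, MvPolynomial.X (l, r l))) *
        q (fun l => b (r l)) := by
  have h1 : gtup b c = fun l => ∑ o, c (l, o) • b o := rfl
  rw [h1, ← AlternatingMap.coe_multilinearMap, MultilinearMap.map_sum]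
  refine Finset.sum_congr rfl fun r _ => ?_
  rw [MultilinearMap.map_smul_univ, Algebra.smul_def, map_prod, map_prod, map_prod]
  simp only [MvPolynomial.eval_X]

theorem exists_gtup (b : Fin s → K) (g : Fin (n + 1) → K)
    (hg : ∀ j, g j ∈ Submodule.span k (Set.range b)) : ∃ c : Fin (n + 1) × Fin s → k,
      gtup b c = g := by
  choose c hc using fun l => (Submodule.mem_span_range_iff_exists_fun k).1 (hg l)
  exact ⟨fun p => c p.1 p.2, funext fun l => hc l⟩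

theorem gtup_mem (b : Fin s → K) (c : Fin (n + 1) × Fin s → k) (j : Fin (n + 1)) :
    gtup b c j ∈ Submodule.span k (Set.range b) :=
  Submodule.sum_mem _ fun a _ => Submodule.smul_mem _ _ (Submodule.subset_span ⟨a, rfl⟩)

theorem Ti_bdd (q : (Fin (n + 1) → K) → K) (L H : Submodule k K) (M t i : ℕ) :
    BddAbove {d | ∃ g : Fin (n + 1) → K, (∀ j, g j ∈ H ^ t) ∧ q g ≠ 0 ∧
      d = finrank k (cl (H ^ (t * i))) - finrank k (rm L H M t i (q g))} :=
  ⟨finrank k (cl (H ^ (t * i))), by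
    rintro d ⟨g, -, -, rfl⟩
    exact Nat.sub_le _ _⟩

theorem le_Ti (q : (Fin (n + 1) → K) → K) (L H : Submodule k K) (M t i : ℕ)
    {g : Fin (n + 1) → K} (hg : ∀ j, g j ∈ H ^ t) (hq : q g ≠ 0) :
    finrank k (cl (H ^ (t * i))) - finrank k (rm L H M t i (q g)) ≤ Ti q L H M t i :=
  le_csSup (Ti_bdd q L H M t i) ⟨g, hg, hq, rfl⟩

/-- The maximum is attained on a nonempty open set. -/
theorem exists_poly_max (hcl : ∀ P : Submodule k K, P.FG → (cl P).FG)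
    (q : K [⋀^Fin (n + 1)]→ₗ[k] K) {L H : Submodule k K} (hL : L.FG) (hH : H.FG) (M t i : ℕ)
    (b : Fin s → K) (hb : Submodule.span k (Set.range b) = H ^ t)
    (hne : ∃ g : Fin (n + 1) → K, (∀ j, g j ∈ H ^ t) ∧ q g ≠ 0) :
    ∃ Φ : MvPolynomial (Fin (n + 1) × Fin s) k, Φ ≠ 0 ∧ ∀ c, MvPolynomial.eval c Φ ≠ 0 →
      q (gtup b c) ≠ 0 ∧ Ti q L H M t i =
        finrank k (cl (H ^ (t * i))) - finrank k (rm L H M t i (q (gtup b c))) := by
  have hne' : {d | ∃ g : Fin (n + 1) → K, (∀ j, g j ∈ H ^ t) ∧ q g ≠ 0 ∧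
      d = finrank k (cl (H ^ (t * i))) - finrank k (rm L H M t i (q g))}.Nonempty := by
    obtain ⟨g, hg, hq⟩ := hne
    exact ⟨_, g, hg, hq, rfl⟩
  obtain ⟨g, hg, hq, hmax⟩ := Nat.sSup_mem hne' (Ti_bdd q L H M t i)
  obtain ⟨c₀, hc₀⟩ := exists_gtup b g fun j => hb ▸ hg j
  have hE : (cl (H ^ (t * i))).FG := hcl _ (hH.pow _)
  have hA : (cl (L ^ (M * t * i))).FG := hcl _ (hL.pow _)
  obtain ⟨Φ, hΦ₀, hΦ⟩ := TG15.lemS2 (k := k) (K := K) (cl (H ^ (t * i))) (cl (L ^ (M * t * i)))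
    hE hA (Fin (n + 1) × Fin s) (Fin (n + 1) → Fin s)
    (fun r => ∏ l, MvPolynomial.X (l, r l)) (fun r => q (fun l => b (r l))) c₀ (by
      rw [← q_gtup, hc₀]
      exact hq)
  refine ⟨Φ, fun h => hΦ₀ (by rw [h, map_zero]), fun c hc => ?_⟩
  obtain ⟨h1, h2⟩ := hΦ c hc
  rw [← q_gtup] at h1
  rw [← q_gtup, ← q_gtup, hc₀] at h2
  refine ⟨h1, le_antisymm ?_ (le_Ti q L H M t i (fun j => hb ▸ gtup_mem b c j) h1)⟩
  refine le_of_eq_of_le hmax (Nat.sub_le_sub_left ?_ _)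
  exact h2

/-- A polynomial with coefficients in `k₁` does not vanish at a generic point. -/
theorem eval_ne_zero_of_coeffs {σ : Type*} {Φ : MvPolynomial σ k} (hΦ : Φ ≠ 0) (k₁ : Subfield k)
    (hk₁ : (Φ.coeffs : Set k) ⊆ k₁) {c : σ → k} (hc : AlgebraicIndependent k₁ c) :
    MvPolynomial.eval c Φ ≠ 0 := by
  obtain ⟨Ψ, hΨ⟩ : Φ ∈ Set.range (MvPolynomial.map (algebraMap k₁ k)) := by
    rw [MvPolynomial.mem_range_map_iff_coeffs_subset]
    intro x hx
    exact ⟨⟨x, hk₁ hx⟩, rfl⟩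
  have hΨ0 : Ψ ≠ 0 := by
    rintro rfl
    rw [map_zero] at hΨ
    exact hΦ hΨ.symm
  intro h0
  apply hΨ0
  apply hc.eq_zero_of_aeval_eq_zero
  rw [← h0, ← hΨ, MvPolynomial.eval_map, MvPolynomial.aeval_def]

/-- **Row GENERIC**: over a countable field of definition, every generic tuple attains all the
maxima `T_i`. -/
theorem generic_max (hcl : ∀ P : Submodule k K, P.FG → (cl P).FG)
    (q : K [⋀^Fin (n + 1)]→ₗ[k] K) {L H : Submodule k K} (hL : L.FG) (hH : H.FG) (M t : ℕ)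
    (b : Fin s → K) (hb : Submodule.span k (Set.range b) = H ^ t)
    (hne : ∃ g : Fin (n + 1) → K, (∀ j, g j ∈ H ^ t) ∧ q g ≠ 0) :
    ∃ S : Set k, S.Countable ∧ ∀ k₁ : Subfield k, S ⊆ k₁ →
      ∀ c : Fin (n + 1) × Fin s → k, AlgebraicIndependent k₁ c →
        (∀ j, gtup b c j ∈ H ^ t) ∧ q (gtup b c) ≠ 0 ∧ ∀ i, Ti q L H M t i =
          finrank k (cl (H ^ (t * i))) - finrank k (rm L H M t i (q (gtup b c))) := by
  choose Φ hΦ0 hΦ using fun i => exists_poly_max hcl q hL hH M t i b hb hne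
  refine ⟨⋃ i, ((Φ i).coeffs : Set k), Set.countable_iUnion fun i => Finset.countable_toSet _,
    fun k₁ hk₁ c hc => ?_⟩
  have h1 : ∀ i, MvPolynomial.eval c (Φ i) ≠ 0 := fun i =>
    eval_ne_zero_of_coeffs (hΦ0 i) k₁ ((Set.subset_iUnion _ i).trans hk₁) hc
  exact ⟨fun j => hb ▸ gtup_mem b c j, (hΦ 0 c (h1 0)).1, fun i => (hΦ i c (h1 i)).2⟩

/-- The existence of a tuple with nonzero Jacobian. -/
theorem Dat.exists_ne {L : Submodule k K} {c : ℕ} {τ : K} {c' : ℕ}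
    {q : K [⋀^Fin (n + 1)]→ₗ[k] K} (hd : Dat k n L c τ c' q) {W : Submodule k K} (hW : W ≠ ⊥)
    {t : ℕ} (ht : 0 < t) : ∃ g : Fin (n + 1) → K, (∀ j, g j ∈ (W * L) ^ t) ∧ q g ≠ 0 := by
  obtain ⟨w, hw, hw0⟩ := (Submodule.ne_bot_iff _).1 hW
  obtain ⟨g, hg, hq⟩ := hd.q_ne (w ^ t) (pow_ne_zero _ hw0)
  refine ⟨g, fun j => ?_, hq⟩
  have h1 : (k ∙ (w ^ t)) * L ≤ (W * L) ^ t := by
    rw [Submodule.mul_le]
    intro x hx y hy
    obtain ⟨a, rfl⟩ := Submodule.mem_span_singleton.1 hx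
    rw [smul_mul_assoc]
    refine Submodule.smul_mem _ _ ?_
    obtain ⟨t', rfl⟩ : ∃ t', t = t' + 1 := ⟨t - 1, by omega⟩
    have h2 : w * 1 ∈ W * L := Submodule.mul_mem_mul hw hd.one
    rw [mul_one] at h2
    have h3 : w ^ (t' + 1) * y = w ^ t' * (w * y) := by ring
    rw [h3, pow_succ]
    exact Submodule.mul_mem_mul (Submodule.pow_mem_pow _ h2 _) (Submodule.mul_mem_mul hw hy)
  exact h1 (hg j)

end Pool.Agent.TG9
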